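import Mathlib

/-!
`MP_8a6e71_co`, Q1: a Boolean network with five components whose asynchronous graph is
non-separating although no two cycles of its signed interaction graph are disjoint.
-/

namespace Pool.Agent.Results.MP_8a6e71_co.NoDisjointCycles

/-- A state of a Boolean network with `n` components. -/
abbrev State (n : ℕ) := Fin n → Bool

/-- A signed digraph on `[n]`: `arc true j i` means that there is a positive arc from `j` to `i`,
`arc false j i` that there is a negative arc from `j` to `i`. -/
structure SignedDigraph (n : ℕ) where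
  arc : Bool → Fin n → Fin n → Prop

/-- The signed interaction graph of `f`: there is a positive (negative) arc from `j` to `i` if
there are states `x`, `y` which differ only in the coordinate `j`, with `x j < y j`, and
`f y i - f x i` is positive (negative). -/
def interactionGraph {n : ℕ} (f : State n → State n) : SignedDigraph n where
  arc s j i := ∃ x y : State n, (∀ k, k ≠ j → x k = y k) ∧ x j = false ∧ y j = true ∧
    f x i = !s ∧ f y i = s

/-- A cycle of the signed digraph `G`: distinct vertices `v 0, …, v k` and arcs of sign `sgn t`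
from `v t` to `v (t + 1)`, where the indices are taken modulo `k + 1`. -/
structure Cycle {n : ℕ} (G : SignedDigraph n) where
  k : ℕ
  v : Fin (k + 1) → Fin n
  sgn : Fin (k + 1) → Bool
  inj : Function.Injective v
  arc : ∀ t, G.arc (sgn t) (v t) (v (t + 1))

/-- The state obtained from `x` by flipping the coordinate `i`. -/
def flipAt {n : ℕ} (x : State n) (i : Fin n) : State n := Function.update x i (!x i)

/-- Trap sets of the asynchronous graph of `f`: no arc leaves `X`. -/
def TrapSet {n : ℕ} (f : State n → State n) (X : Set (State n)) : Prop :=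
  ∀ x ∈ X, ∀ i, f x i ≠ x i → flipAt x i ∈ X

/-- Attractors: the inclusion-minimal nonempty trap sets. -/
def Attractor {n : ℕ} (f : State n → State n) (X : Set (State n)) : Prop :=
  X.Nonempty ∧ TrapSet f X ∧ ∀ Y : Set (State n), Y.Nonempty → TrapSet f Y → Y ⊆ X → Y = X

/-- Subspaces: the sets `{x | x i = c i for all i ∈ I}`. -/
def IsSubspace {n : ℕ} (X : Set (State n)) : Prop :=
  ∃ (I : Set (Fin n)) (c : Fin n → Bool), X = {x | ∀ i ∈ I, x i = c i}

/-- The smallest subspace `[X]` containing `X`. -/
def hull {n : ℕ} (X : Set (State n)) : Set (State n) := ⋂₀ {Y | IsSubspace Y ∧ X ⊆ Y}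

/-- The asynchronous graph of `f` is separating: `[A] ∩ [B] = ∅` for distinct attractors. -/
def Separating {n : ℕ} (f : State n → State n) : Prop :=
  ∀ A B : Set (State n), Attractor f A → Attractor f B → A ≠ B → hull A ∩ hull B = ∅

/-- A signed digraph is non-separating if it is the signed interaction graph of some `f` whose
asynchronous graph is non-separating. -/
def NonSeparating {n : ℕ} (G : SignedDigraph n) : Prop :=
  ∃ f : State n → State n, G = interactionGraph f ∧ ¬ Separating f

/-- The network. -/
def net (x : State 5) : State 5 :=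
  ![xor (x 1) (x 3), xor (x 2) (x 3),
    (x 0 && !x 3 && !x 4) || (x 3 && !x 4) || (!x 3 && x 4) || (!x 0 && x 3 && x 4),
    (!x 4 && (x 1 || x 2)) || (x 4 && !(x 1 && x 2)),
    xor (x 0) (x 1)]

/-- The pairs `(j, i)` such that `net x i` depends on `x j`. -/
def dep : Fin 5 → Fin 5 → Bool :=
  ![![false, false, true, false, true],
    ![true, false, false, true, true],
    ![false, true, false, true, false],
    ![true, true, true, false, false],
    ![false, false, true, true, false]]

theorem dep_of_arc {s : Bool} {j i : Fin 5} (h : (interactionGraph net).arc s j i) :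
    dep j i = true := by
  obtain ⟨x, y, h1, -, -, h4, h5⟩ := h
  by_contra hd
  have key : net x i = net y i := by
    fin_cases i <;> fin_cases j <;>
      first
      | (exact absurd (by decide) hd)
      | (simp only [net]; simp [h1 0, h1 1, h1 2, h1 3, h1 4])
  rw [h4, h5] at key
  cases s <;> simp at key

theorem no_two (a b c d e a' b' c' d' e' : Bool)
    (h1 : (a || b || c || d || e) = true) (h2 : (a' || b' || c' || d' || e') = true)
    (p0 : a = true → (b || d) = true) (p1 : b = true → (c || d) = true)
    (p2 : c = true → (a || d || e) = true) (p3 : d = true → (b || c || e) = true)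
    (p4 : e = true → (a || b) = true)
    (q0 : a' = true → (b' || d') = true) (q1 : b' = true → (c' || d') = true)
    (q2 : c' = true → (a' || d' || e') = true) (q3 : d' = true → (b' || c' || e') = true)
    (q4 : e' = true → (a' || b') = true) :
    ((a && a') || (b && b') || (c && c') || (d && d') || (e && e')) = true := by
  revert a b c d e a' b' c' d' e'
  decide

/-- Every vertex of a cycle has a predecessor on the cycle. -/
theorem Cycle.pred {n : ℕ} {G : SignedDigraph n} (C : Cycle G) (t : Fin (C.k + 1)) :
    ∃ u, ∃ s, G.arc s (C.v u) (C.v t) := by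
  refine ⟨t - 1, C.sgn (t - 1), ?_⟩
  have h := C.arc (t - 1)
  rwa [sub_add_cancel] at h

open Classical in
/-- The vertex set of a cycle, as a Boolean function. -/
noncomputable def Cycle.ind {n : ℕ} {G : SignedDigraph n} (C : Cycle G) (i : Fin n) : Bool :=
  decide (∃ t, C.v t = i)

theorem Cycle.ind_iff {n : ℕ} {G : SignedDigraph n} (C : Cycle G) (i : Fin n) :
    C.ind i = true ↔ ∃ t, C.v t = i := by
  unfold Cycle.ind
  rw [decide_eq_true_iff]

theorem Cycle.ind_dep (C : Cycle (interactionGraph net)) (i : Fin 5) (hi : C.ind i = true) :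
    ∃ j, C.ind j = true ∧ dep j i = true := by
  obtain ⟨t, rfl⟩ := (C.ind_iff i).mp hi
  obtain ⟨u, s, h⟩ := C.pred t
  exact ⟨C.v u, (C.ind_iff _).mpr ⟨u, rfl⟩, dep_of_arc h⟩

theorem Cycle.ind_ne (C : Cycle (interactionGraph net)) :
    (C.ind 0 || C.ind 1 || C.ind 2 || C.ind 3 || C.ind 4) = true := by
  have h : C.ind (C.v 0) = true := (C.ind_iff _).mpr ⟨0, rfl⟩
  generalize C.v 0 = i at h
  fin_cases i <;> simp_all

theorem Cycle.ind0 (C : Cycle (interactionGraph net)) (h : C.ind 0 = true) :
    (C.ind 1 || C.ind 3) = true := by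
  obtain ⟨j, h1, h2⟩ := C.ind_dep 0 h
  fin_cases j <;> simp_all [dep]

theorem Cycle.ind1 (C : Cycle (interactionGraph net)) (h : C.ind 1 = true) :
    (C.ind 2 || C.ind 3) = true := by
  obtain ⟨j, h1, h2⟩ := C.ind_dep 1 h
  fin_cases j <;> simp_all [dep]

theorem Cycle.ind2 (C : Cycle (interactionGraph net)) (h : C.ind 2 = true) :
    (C.ind 0 || C.ind 3 || C.ind 4) = true := by
  obtain ⟨j, h1, h2⟩ := C.ind_dep 2 h
  fin_cases j <;> simp_all [dep]

theorem Cycle.ind3 (C : Cycle (interactionGraph net)) (h : C.ind 3 = true) :
    (C.ind 1 || C.ind 2 || C.ind 4) = true := by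
  obtain ⟨j, h1, h2⟩ := C.ind_dep 3 h
  fin_cases j <;> simp_all [dep]

theorem Cycle.ind4 (C : Cycle (interactionGraph net)) (h : C.ind 4 = true) :
    (C.ind 0 || C.ind 1) = true := by
  obtain ⟨j, h1, h2⟩ := C.ind_dep 4 h
  fin_cases j <;> simp_all [dep]

theorem meet (C D : Cycle (interactionGraph net)) : ∃ a b, C.v a = D.v b := by
  have h := no_two _ _ _ _ _ _ _ _ _ _ C.ind_ne D.ind_ne C.ind0 C.ind1 C.ind2 C.ind3 C.ind4
    D.ind0 D.ind1 D.ind2 D.ind3 D.ind4
  have key : ∃ i, C.ind i = true ∧ D.ind i = true := by
    simp only [Bool.or_eq_true, Bool.and_eq_true] at h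
    rcases h with (((h | h) | h) | h) | h
    · exact ⟨0, h⟩
    · exact ⟨1, h⟩
    · exact ⟨2, h⟩
    · exact ⟨3, h⟩
    · exact ⟨4, h⟩
  obtain ⟨i, h1, h2⟩ := key
  obtain ⟨a, ha⟩ := (C.ind_iff i).mp h1
  obtain ⟨b, hb⟩ := (D.ind_iff i).mp h2
  exact ⟨a, b, by rw [ha, hb]⟩

/-- The zero state. -/
def zeroState : State 5 := fun _ => false

/-- A closed walk through the second attractor. -/
def walk : Fin 16 → State 5 :=
  ![![false, false, true, true, false], ![true, false, true, true, false],
    ![true, false, true, true, true], ![true, false, false, true, true],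
    ![true, true, false, true, true], ![true, true, false, true, false],
    ![false, true, false, true, false], ![false, true, false, true, true],
    ![false, true, true, true, true], ![false, true, true, false, true],
    ![true, true, true, false, true], ![true, true, true, false, false],
    ![true, true, true, true, false], ![false, true, true, true, false],
    ![false, true, true, true, true], ![false, false, true, true, true]]

/-- The coordinate which is flipped after the state `walk t`. -/
def coord : Fin 16 → Fin 5 := ![0, 4, 2, 1, 4, 0, 4, 2, 3, 0, 4, 3, 0, 4, 1, 4]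

theorem walk_step : ∀ t : Fin 16, net (walk t) (coord t) ≠ walk t (coord t) ∧
    ∀ i, flipAt (walk t) (coord t) i = walk (t + 1) i := by
  decide

theorem walk_trap : ∀ t : Fin 16, ∀ i : Fin 5, net (walk t) i ≠ walk t i →
    ∃ u : Fin 16, ∀ k, flipAt (walk t) i k = walk u k := by
  decide

theorem reach : ∀ t u : Fin 16, ∃ m : Fin 16, (fun s : Fin 16 => s + 1)^[m.val] t = u := by
  decide

theorem attractor_zero : Attractor net {zeroState} := by
  refine ⟨Set.singleton_nonempty _, ?_, ?_⟩
  · intro x hx i hi
    rw [Set.mem_singleton_iff] at hx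
    subst hx
    exact absurd (by revert i; decide) hi
  · intro Y hY _ hsub
    exact (Set.subset_singleton_iff_eq.mp hsub).resolve_left hY.ne_empty

theorem attractor_walk : Attractor net (Set.range walk) := by
  refine ⟨⟨_, 0, rfl⟩, ?_, ?_⟩
  · rintro x ⟨t, rfl⟩ i hi
    obtain ⟨u, hu⟩ := walk_trap t i hi
    exact ⟨u, (funext hu).symm⟩
  · intro Y hY htrap hsub
    have step : ∀ t : Fin 16, walk t ∈ Y → walk (t + 1) ∈ Y := by
      intro t ht
      have h := htrap (walk t) ht (coord t) (walk_step t).1
      rwa [funext (walk_step t).2] at h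
    obtain ⟨x, hx⟩ := hY
    obtain ⟨t, rfl⟩ := hsub hx
    have all : ∀ m : ℕ, walk ((fun s => s + 1)^[m] t) ∈ Y := by
      intro m
      induction m with
      | zero => exact hx
      | succ m ih =>
        rw [Function.iterate_succ_apply']
        exact step _ ih
    apply Set.Subset.antisymm hsub
    rintro x ⟨u, rfl⟩
    obtain ⟨m, hm⟩ := reach t u
    rw [← hm]
    exact all m

theorem walk_values : ∀ i : Fin 5, (∃ t, walk t i = true) ∧ (∃ t, walk t i = false) := by
  decide

theorem zero_mem_hull : zeroState ∈ hull (Set.range walk) := by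
  rintro Y ⟨⟨I, c, rfl⟩, hY⟩
  intro i hi
  exfalso
  obtain ⟨⟨t, ht⟩, ⟨u, hu⟩⟩ := walk_values i
  have h1 : walk t i = c i := hY ⟨t, rfl⟩ i hi
  have h2 : walk u i = c i := hY ⟨u, rfl⟩ i hi
  rw [ht] at h1
  rw [hu, ← h1] at h2
  exact Bool.false_ne_true h2

theorem not_separating : ¬ Separating net := by
  intro h
  have hne : ({zeroState} : Set (State 5)) ≠ Set.range walk := by
    intro he
    have : walk 0 ∈ ({zeroState} : Set (State 5)) := by rw [he]; exact ⟨0, rfl⟩
    rw [Set.mem_singleton_iff] at this
    have h2 := congrFun this 2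
    exact absurd h2 (by decide)
  have h1 := h _ _ attractor_zero attractor_walk hne
  have h2 : zeroState ∈ hull {zeroState} ∩ hull (Set.range walk) := by
    refine ⟨?_, zero_mem_hull⟩
    rintro Y ⟨-, hY⟩
    exact hY rfl
  rw [h1] at h2
  exact h2

/-- There is a non-separating signed digraph, with five vertices, in which any two cycles have a
common vertex. In particular no positive cycle of it is disjoint from a negative cycle. -/
theorem result : ∃ G : SignedDigraph 5, NonSeparating G ∧
    ∀ C D : Cycle G, ∃ a b, C.v a = D.v b :=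
  ⟨interactionGraph net, ⟨net, rfl, not_separating⟩, meet⟩

end Pool.Agent.Results.MP_8a6e71_co.NoDisjointCycles
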